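import Mathlib
import Pool.Agent.Q191.ML.Gap

/-!
# Margulis' injectivity radius conjecture over fields with a large subfield with many small primes

Let `k` be a number field which contains a field `F` with a prime number `p` that splits completely
in `F`, or more generally such that a positive proportion of the decomposition of `p` in `F` is due
to prime ideals of bounded norm.  Nothing is assumed on the extension `k / F` (for instance on the
residue degrees and the ramification indices of `k` above `p`) except that its degree is bounded by a
constant times the degree of `F` (or a power of it, if only a proportion of the primes is small).  All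
torsion-free arithmetic groups over such fields, of any degree, realized by integral matrices of a
fixed size `n`, with at most `s` noncompact embeddings, form a uniformly discrete family.

`Pool.Agent.H225R3.MargDefs` contains the definitions: `Realization ρ Γ k n S` (a homomorphism `r`
from `Γ` to the `n` by `n` matrices over the ring of integers of `k`, bounded under all embeddings
outside `S`, such that for `σ` in `S` the eigenvalues of `σ (r γ)` are eigenvalues of `ρ γ`, and such
that only `1` is mapped to a unipotent matrix) and `UniformlyDiscrete` (there is an identity
neighbourhood `U` such that `g U g⁻¹` meets every group of the family in the identity only).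

Method.  Let `t_j` be the trace from `k` to `F` of the trace of `(r γ) ^ j`.  By Witt coordinates,
`t_j` for `j = i p ^ (l + L)` and for `j = i p ^ l` are congruent modulo the power `P ^ (l + 1)` of each
small prime ideal `P` of `F` above `p`, where `L` is a multiple of the residue degrees.  The norm of
the difference is smaller than the norm of the modulus if `p ^ l` is a little larger than
`[k : F] ^ B` and the noncompact eigenvalues are near the unit circle; so the traces are equal for
`i ≤ s n`, and step by step one reaches exponents for which the powers of the eigenvalues outside the
unit circle are exponentially large in the degree of `F`.  By Newton's identities this is impossible,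
as the first trace is small.
-/

set_option autoImplicit false

open NumberField Module Pool.Agent.H225R3.Marg

namespace Pool.Agent.Q191.Withdrawn.SplitSubfields

/-- The number field `k` contains a field `F` which has a set `T` of prime ideals above one prime
number `p`, of norms at most `Q`, such that the product of their norms is at least
`p ^ ([F : ℚ] / B)`, and `[k : F] ^ B ≤ C [F : ℚ]`. (If `p` is unramified in `F`, the product of the
norms of all the prime ideals above `p` is `p ^ [F : ℚ]`.) -/
def HasSplitSubfield (Q B C : ℕ) (k : Type) [Field k] [NumberField k] : Prop :=
  ∃ (p : ℕ) (F : Type) (_ : Field F) (_ : NumberField F) (_ : Algebra F k)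
    (T : Finset (Ideal (𝓞 F))), p.Prime ∧
    (∀ P ∈ T, P.IsPrime ∧ (p : 𝓞 F) ∈ P ∧ Ideal.absNorm P ≤ Q) ∧
    p ^ finrank ℚ F ≤ (∏ P ∈ T, Ideal.absNorm P) ^ B ∧
    (finrank F k) ^ B ≤ C * finrank ℚ F

/-- The torsion-free subgroups `Γ` of `G` which have a realization by matrices of size `n`, with at
most `s` noncompact embeddings, over a number field `k` with `HasSplitSubfield Q B C k`. -/
def Family (Q B C s n : ℕ) {G : Type*} [Group G] {M : ℕ} (ρ : G →* Matrix (Fin M) (Fin M) ℂ) :
    Set (Subgroup G) :=
  {Γ | (∀ γ ∈ Γ, ∀ N : ℕ, 0 < N → γ ^ N = 1 → γ = 1) ∧
    ∃ (k : Type) (_ : Field k) (_ : NumberField k) (S : Finset (k →+* ℂ))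
      (_ : Realization ρ Γ k n S), S.card ≤ s ∧ HasSplitSubfield Q B C k}

/-- Let `G` be a topological group and `ρ` a continuous finite dimensional complex representation of
`G` (for instance the complexified adjoint representation of a semisimple Lie group). For all `n`,
`s`, `Q`, `B` and `C` the family of all torsion-free subgroups of `G` that are realized by integral
matrices of size `n`, with at most `s` noncompact embeddings, over a number field `k` with
`HasSplitSubfield Q B C k` is uniformly discrete. -/
theorem result {G : Type*} [Group G] [TopologicalSpace G] {M : ℕ}
    (ρ : G →* Matrix (Fin M) (Fin M) ℂ) (hρ : Continuous ρ) (Q B C s n : ℕ) :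
    UniformlyDiscrete (Family Q B C s n ρ) := by
  obtain ⟨ε, hε, h⟩ := Pool.Agent.Q191.ML.gap' n s Q B C
  refine ⟨_, nhd ρ hρ ε hε, ?_⟩
  rintro Γ ⟨htf, k, _, _, S, R, hSs, p, F, _, _, _, T, hp, hT, hD, hm⟩ g u hu hΓ
  refine final_step' R htf ε hε g u hu hΓ fun hnil => ?_
  have hunit : IsUnit (R.r ⟨g * u * g⁻¹, hΓ⟩) :=
    (Group.isUnit (⟨g * u * g⁻¹, hΓ⟩ : Γ)).map R.r
  exact h k p F S T _ hp hT hD hm hSs hunit (fun σ hσ l hl => R.comp' _ σ hσ l hl) hnil

end Pool.Agent.Q191.Withdrawn.SplitSubfields
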